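import Pool.Agent.H158.RG8

set_option autoImplicit false

open MeasureTheory Set Real

namespace Pool.Agent.Results.MP_cfe56d_mp.EqualityCases

/-- `u` is the continuous representative of a function of the Sobolev space `H¹(ℝ)` with weak
derivative `g`. -/
structure IsSobolev (u g : ℝ → ℂ) : Prop where
  memLp : MemLp u 2
  memLp_deriv : MemLp g 2
  integral_deriv : ∀ a b, u b - u a = ∫ x in a..b, g x

/-- The family is orthonormal in `L²(ℝ)`. -/
def IsOrthonormal {N : ℕ} (u : Fin N → ℝ → ℂ) : Prop :=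
  ∀ n m, ∫ x, star (u n x) * u m x = if n = m then (1 : ℂ) else 0

/-- The one-particle density matrix `γ = ∑ₙ |uₙ⟩⟨uₙ|` satisfies `γ ≤ 1`. -/
def IsSuborthonormal {N : ℕ} (u : Fin N → ℝ → ℂ) : Prop :=
  ∀ c : Fin N → ℂ, ∫ x, ‖∑ n, c n * u n x‖ ^ 2 ≤ ∑ n, ‖c n‖ ^ 2

/-- The optimiser `√(a / (π cosh (a (x - x₀))))`, normalised in `L²(ℝ)`. -/
noncomputable def profile (a x₀ x : ℝ) : ℝ := √(a / (π * cosh (a * (x - x₀))))

/-- The right-hand side of the kinetic inequality in dimension one with the constant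
`K₁ = π² / 4`. -/
noncomputable def rhs {N : ℕ} (u : Fin N → ℝ → ℂ) : ℝ :=
  π ^ 2 / 4 * ∫ x, (∑ n, ‖u n x‖ ^ 2) ^ 3

/-- The kinetic energy. -/
noncomputable def kinetic {N : ℕ} (g : Fin N → ℝ → ℂ) : ℝ := ∑ n, ∫ x, ‖g n x‖ ^ 2

lemma suborthonormal_of_orthonormal {N : ℕ} {u g : Fin N → ℝ → ℂ}
    (hs : ∀ n, IsSobolev (u n) (g n)) (ho : IsOrthonormal u) : IsSuborthonormal u := by
  intro c
  have hij : ∀ n m, Integrable (fun x => star (u n x) * u m x) := by
    intro n m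
    have h2 : ∀ n, Integrable (fun x => ‖u n x‖ ^ 2) := fun n =>
      (hs n).memLp.integrable_norm_pow (by norm_num)
    have hm : AEStronglyMeasurable (fun x => star (u n x) * u m x) volume :=
      ((hs n).memLp.1.star).mul (hs m).memLp.1
    refine ((h2 n).add (h2 m)).mono' hm (Filter.Eventually.of_forall fun x => ?_)
    rw [norm_mul, norm_star]
    simp only [Pi.add_apply]
    nlinarith [sq_nonneg (‖u n x‖ - ‖u m x‖), norm_nonneg (u n x), norm_nonneg (u m x)]
  have hexp : ∀ x, ((‖∑ n, c n * u n x‖ ^ 2 : ℝ) : ℂ) =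
      ∑ n, ∑ m, (star (c n) * c m) * (star (u n x) * u m x) := by
    intro x
    have h1 : ((‖∑ n, c n * u n x‖ ^ 2 : ℝ) : ℂ) =
        star (∑ n, c n * u n x) * (∑ n, c n * u n x) := by
      rw [mul_comm, ← Complex.normSq_eq_norm_sq]
      exact (Complex.mul_conj _).symm
    rw [h1]
    simp only [star_sum, star_mul']
    rw [Finset.sum_mul_sum]
    refine Finset.sum_congr rfl fun n _ => Finset.sum_congr rfl fun m _ => ?_
    ring
  have h2 : ((∫ x, ‖∑ n, c n * u n x‖ ^ 2 : ℝ) : ℂ) = ((∑ n, ‖c n‖ ^ 2 : ℝ) : ℂ) := by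
    rw [← integral_complex_ofReal]
    simp only [hexp]
    rw [integral_finsetSum _ fun n _ => integrable_finsetSum _ fun m _ =>
      (hij n m).const_mul _]
    push_cast
    refine Finset.sum_congr rfl fun n _ => ?_
    rw [integral_finsetSum _ fun m _ => (hij n m).const_mul _]
    simp only [integral_const_mul, ho n]
    simp only [mul_ite, mul_one, mul_zero, Finset.sum_ite_eq, Finset.mem_univ, if_true]
    rw [← Complex.ofReal_pow, ← Complex.normSq_eq_norm_sq, mul_comm]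
    exact Complex.mul_conj _
  exact (Complex.ofReal_injective h2).le

/-- The cases of equality in the sharp Lieb–Thirring kinetic inequality in dimension one. -/
theorem result :
    (∀ (N : ℕ) (u g : Fin N → ℝ → ℂ), (∀ n, IsSobolev (u n) (g n)) → IsSuborthonormal u →
      rhs u ≤ kinetic g ∧
      (rhs u = kinetic g ↔ (∀ n x, u n x = 0) ∨
        ∃ (a x₀ : ℝ) (ν : Fin N → ℂ), 0 < a ∧ ∑ n, ‖ν n‖ ^ 2 = 1 ∧
          ∀ n x, u n x = ν n * profile a x₀ x)) ∧
    (∀ (N : ℕ) (u g : Fin N → ℝ → ℂ), (∀ n, IsSobolev (u n) (g n)) → IsOrthonormal u →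
      1 ≤ N → (rhs u = kinetic g ↔ N = 1 ∧ ∃ (a x₀ : ℝ) (ζ : ℂ), 0 < a ∧ ‖ζ‖ = 1 ∧
          ∀ n x, u n x = ζ * profile a x₀ x)) ∧
    (∀ (N : ℕ) (u g : Fin N → ℝ → ℂ), (∀ n, IsSobolev (u n) (g n)) → IsOrthonormal u →
      2 ≤ N → rhs u < kinetic g) := by
  have hA : ∀ (N : ℕ) (u g : Fin N → ℝ → ℂ), (∀ n, IsSobolev (u n) (g n)) →
      IsSuborthonormal u → rhs u ≤ kinetic g ∧
      (rhs u = kinetic g ↔ (∀ n x, u n x = 0) ∨
        ∃ (a x₀ : ℝ) (ν : Fin N → ℂ), 0 < a ∧ ∑ n, ‖ν n‖ ^ 2 = 1 ∧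
          ∀ n x, u n x = ν n * profile a x₀ x) := fun N u g hs hsub =>
    (Pool.Agent.H158.RG.complex_rigidity u g (fun n => (hs n).memLp)
      (fun n => (hs n).memLp_deriv) (fun n => (hs n).integral_deriv) hsub).2
  have hC : ∀ (N : ℕ) (u g : Fin N → ℝ → ℂ), (∀ n, IsSobolev (u n) (g n)) →
      IsOrthonormal u → 2 ≤ N → rhs u < kinetic g := fun N u g hs ho hN =>
    Pool.Agent.H158.RG.complex_strict hN u g (fun n => (hs n).memLp)
      (fun n => (hs n).memLp_deriv) (fun n => (hs n).integral_deriv)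
      (suborthonormal_of_orthonormal hs ho) ho
  refine ⟨hA, ?_, hC⟩
  intro N u g hs ho hN
  have hsub := suborthonormal_of_orthonormal hs ho
  constructor
  · intro heq
    have hN1 : N = 1 := by
      by_contra hne
      exact (hC N u g hs ho (by omega)).ne heq
    subst hN1
    refine ⟨rfl, ?_⟩
    rcases (hA 1 u g hs hsub).2.1 heq with h0 | ⟨a, x₀, ν, ha, hν, h1⟩
    · have h11 := ho 0 0
      simp [h0] at h11
    · refine ⟨a, x₀, ν 0, ha, ?_, fun n x => ?_⟩
      · rw [Fin.sum_univ_one] at hν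
        nlinarith [norm_nonneg (ν 0)]
      · have hn : n = 0 := Subsingleton.elim _ _
        subst hn
        exact h1 0 x
  · rintro ⟨hN1, a, x₀, ζ, ha, hζ, h1⟩
    subst hN1
    refine (hA 1 u g hs hsub).2.2 (Or.inr ⟨a, x₀, fun _ => ζ, ha, ?_, h1⟩)
    rw [Fin.sum_univ_one, hζ, one_pow]

end Pool.Agent.Results.MP_cfe56d_mp.EqualityCases
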