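import Pool.Agent.H158.OD1
import Pool.Agent.H158.OD2

set_option autoImplicit false

open MeasureTheory Set Real

namespace Pool.Agent.Results.MP_cfe56d_mp.OddFamilies

/-- `u` is the continuous representative of a function of the Sobolev space `H¹(ℝ)` with weak
derivative `g`. -/
structure IsSobolev (u g : ℝ → ℂ) : Prop where
  memLp : MemLp u 2
  memLp_deriv : MemLp g 2
  integral_deriv : ∀ a b, u b - u a = ∫ x in a..b, g x

/-- `u_1, …, u_N` are odd functions of `H¹(ℝ)` with weak derivatives `g_1, …, g_N`, and they are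
orthonormal in `L²(ℝ)`. -/
structure IsOddSystem {N : ℕ} (u g : Fin N → ℝ → ℂ) : Prop where
  sobolev : ∀ n, IsSobolev (u n) (g n)
  orthonormal : ∀ n m, ∫ x, star (u n x) * u m x = if n = m then (1 : ℂ) else 0
  odd : ∀ n x, u n (-x) = -u n x

/-- For the orthonormal families of odd functions on the line the sharp constant of the kinetic
inequality is `π² = 3 K₁^cl` (four times the constant `K₁ = π² / 4` of all families), and it is
never attained. -/
theorem result :
    (∀ (N : ℕ) (u g : Fin N → ℝ → ℂ), 1 ≤ N → IsOddSystem u g →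
      Integrable (fun x => (∑ n, ‖u n x‖ ^ 2) ^ 3) ∧
      π ^ 2 * ∫ x, (∑ n, ‖u n x‖ ^ 2) ^ 3 < ∑ n, ∫ x, ‖g n x‖ ^ 2) ∧
    (∀ K : ℝ, π ^ 2 < K → ∃ u g : Fin 1 → ℝ → ℂ, IsOddSystem u g ∧
      ∑ n, ∫ x, ‖g n x‖ ^ 2 < K * ∫ x, (∑ n, ‖u n x‖ ^ 2) ^ 3) := by
  constructor
  · intro N u g hN hs
    have hu2 : ∀ n, MemLp (u n) 2 := fun n => (hs.sobolev n).memLp
    have hg2 : ∀ n, MemLp (g n) 2 := fun n => (hs.sobolev n).memLp_deriv
    have hug : ∀ n a b, u n b - u n a = ∫ x in a..b, g n x := fun n => (hs.sobolev n).integral_deriv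
    have hgram : ∀ c : Fin N → ℂ, ∫ x, ‖∑ n, c n * u n x‖ ^ 2 = ∑ n, ‖c n‖ ^ 2 := by
      intro c
      have hij : ∀ n m, Integrable (fun x => star (u n x) * u m x) := by
        intro n m
        have h2 : ∀ n, Integrable (fun x => ‖u n x‖ ^ 2) := fun n =>
          (hu2 n).integrable_norm_pow (by norm_num)
        have hm : AEStronglyMeasurable (fun x => star (u n x) * u m x) volume :=
          ((hu2 n).1.star).mul (hu2 m).1
        refine ((h2 n).add (h2 m)).mono' hm (Filter.Eventually.of_forall fun x => ?_)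
        rw [norm_mul, norm_star]
        simp only [Pi.add_apply]
        nlinarith [sq_nonneg (‖u n x‖ - ‖u m x‖), norm_nonneg (u n x), norm_nonneg (u m x)]
      have hexp : ∀ x, ((‖∑ n, c n * u n x‖ ^ 2 : ℝ) : ℂ) =
          ∑ n, ∑ m, (star (c n) * c m) * (star (u n x) * u m x) := by
        intro x
        have h1 : ((‖∑ n, c n * u n x‖ ^ 2 : ℝ) : ℂ) =
            star (∑ n, c n * u n x) * (∑ n, c n * u n x) := by
          rw [mul_comm, ← Complex.normSq_eq_norm_sq]
          exact (Complex.mul_conj _).symm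
        rw [h1]
        simp only [star_sum, star_mul']
        rw [Finset.sum_mul_sum]
        refine Finset.sum_congr rfl fun n _ => Finset.sum_congr rfl fun m _ => ?_
        ring
      have h2 : ((∫ x, ‖∑ n, c n * u n x‖ ^ 2 : ℝ) : ℂ) = ((∑ n, ‖c n‖ ^ 2 : ℝ) : ℂ) := by
        rw [← integral_complex_ofReal]
        simp only [hexp]
        rw [integral_finsetSum _ fun n _ => integrable_finsetSum _ fun m _ =>
          (hij n m).const_mul _]
        push_cast
        refine Finset.sum_congr rfl fun n _ => ?_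
        rw [integral_finsetSum _ fun m _ => (hij n m).const_mul _]
        simp only [integral_const_mul, hs.orthonormal n]
        simp only [mul_ite, mul_one, mul_zero, Finset.sum_ite_eq, Finset.mem_univ, if_true]
        rw [← Complex.ofReal_pow, ← Complex.normSq_eq_norm_sq, mul_comm]
        exact Complex.mul_conj _
      exact Complex.ofReal_injective h2
    obtain ⟨i1, h1⟩ := Pool.Agent.H158.OD.half hN u g hu2 hg2 hug hs.odd hgram
    -- the reflected family
    have hugr : ∀ n a b, u n (-b) - u n (-a) = ∫ x in a..b, -g n (-x) := by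
      intro n a b
      rw [hug n (-a) (-b), intervalIntegral.integral_neg,
        intervalIntegral.integral_comp_neg (fun x => g n x), ← intervalIntegral.integral_symm]
    have hmp : MeasurePreserving (fun x : ℝ => -x) volume volume := Measure.measurePreserving_neg volume
    obtain ⟨i2, h2⟩ := Pool.Agent.H158.OD.half hN (fun n x => u n (-x)) (fun n x => -g n (-x))
      (fun n => (hu2 n).comp_measurePreserving hmp)
      (fun n => ((hg2 n).comp_measurePreserving hmp).neg) hugr
      (fun n x => by rw [hs.odd n (-x)])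
      (fun c => by
        have h3 : ∫ x, ‖∑ n, c n * u n (-x)‖ ^ 2 = ∫ x, ‖∑ n, c n * u n x‖ ^ 2 :=
          integral_neg_eq_self (fun x => ‖∑ n, c n * u n x‖ ^ 2) volume
        rw [h3, hgram])
    set F : ℝ → ℝ := fun x => (∑ n, ‖u n x‖ ^ 2) ^ 3 with hF
    have hFe : ∀ x, F (-x) = F x := by
      intro x
      simp only [hF]
      congr 1
      exact Finset.sum_congr rfl fun n _ => by rw [hs.odd, norm_neg]
    have hneg : ∀ f : ℝ → ℝ, ∫ x in Ioi 0, f (-x) = ∫ x in Iic 0, f x := by
      intro f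
      have := integral_comp_neg_Ioi (0:ℝ) f
      rwa [neg_zero] at this
    have hint : Integrable F :=
      (Pool.Agent.H158.RG.complex_rigidity u g hu2 hg2 hug (fun c => (hgram c).le)).1
    refine ⟨hint, ?_⟩
    have e1 : ∫ x, F x = (∫ x in Iic 0, F x) + ∫ x in Ioi 0, F x := by
      have h4 := integral_add_compl (s := Iic (0:ℝ)) measurableSet_Iic hint
      rw [compl_Iic] at h4
      exact h4.symm
    have e2 : ∀ n, ∫ x, ‖g n x‖ ^ 2 = (∫ x in Iic 0, ‖g n x‖ ^ 2) + ∫ x in Ioi 0, ‖g n x‖ ^ 2 := by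
      intro n
      have h4 := integral_add_compl (s := Iic (0:ℝ)) measurableSet_Iic
        ((hg2 n).integrable_norm_pow (by norm_num) : Integrable fun x => ‖g n x‖ ^ 2)
      rw [compl_Iic] at h4
      exact h4.symm
    have e3 : ∫ x in Ioi 0, (∑ n, ‖u n (-x)‖ ^ 2) ^ 3 = ∫ x in Iic 0, F x := hneg F
    have e4 : ∑ n, ∫ x in Ioi 0, ‖-g n (-x)‖ ^ 2 = ∑ n, ∫ x in Iic 0, ‖g n x‖ ^ 2 := by
      refine Finset.sum_congr rfl fun n _ => ?_
      simp only [norm_neg]
      exact hneg (fun x => ‖g n x‖ ^ 2)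
    rw [e3, e4] at h2
    rw [e1, Finset.sum_congr rfl fun n _ => e2 n, Finset.sum_add_distrib]
    have h5 : π ^ 2 * ∫ x in Ioi 0, F x < ∑ n, ∫ x in Ioi 0, ‖g n x‖ ^ 2 := h1
    linarith
  · intro K hK
    obtain ⟨u, g, h1, h2, h3, h4, h5, h6⟩ := Pool.Agent.H158.OD.odd_opt (sub_pos.2 hK)
    refine ⟨fun _ => u, fun _ => g, ⟨fun _ => ⟨h1, h2, h3⟩, fun n m => ?_, fun _ => h4⟩, ?_⟩
    · rw [if_pos (Subsingleton.elim n m)]
      exact h5
    · simp only [Fin.sum_univ_one]
      rwa [show π ^ 2 + (K - π ^ 2) = K by ring] at h6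

end Pool.Agent.Results.MP_cfe56d_mp.OddFamilies
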