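import Pool.Agent.H158.RG11
import Pool.Agent.H158.RG12

set_option autoImplicit false

open MeasureTheory Set Real

namespace Pool.Agent.Results.MP_cfe56d_mp.RemainderTerm

/-- `u` is the continuous representative of a real function of the Sobolev space `H¹(ℝ)` with weak
derivative `g`. -/
structure IsSobolevReal (u g : ℝ → ℝ) : Prop where
  memLp : MemLp u 2
  memLp_deriv : MemLp g 2
  integral_deriv : ∀ a b, u b - u a = ∫ x in a..b, g x

/-- `u` is the continuous representative of a function of the Sobolev space `H¹(ℝ)` with weak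
derivative `g`. -/
structure IsSobolev (u g : ℝ → ℂ) : Prop where
  memLp : MemLp u 2
  memLp_deriv : MemLp g 2
  integral_deriv : ∀ a b, u b - u a = ∫ x in a..b, g x

/-- The family is orthonormal in `L²(ℝ)`. -/
def IsOrthonormal {N : ℕ} (u : Fin N → ℝ → ℂ) : Prop :=
  ∀ n m, ∫ x, star (u n x) * u m x = if n = m then (1 : ℂ) else 0

/-- The one-particle density matrix `γ = ∑ₙ |uₙ⟩⟨uₙ|` satisfies `γ ≤ 1`. -/
def IsSuborthonormal {N : ℕ} (u : Fin N → ℝ → ℂ) : Prop :=
  ∀ c : Fin N → ℂ, ∫ x, ‖∑ n, c n * u n x‖ ^ 2 ≤ ∑ n, ‖c n‖ ^ 2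

/-- The density of a real family. -/
noncomputable def density {ι : Type} [Fintype ι] (U : ι → ℝ → ℝ) (x : ℝ) : ℝ := ∑ i, U i x ^ 2

/-- The components of `Γ(x) U(x)`, where `Γ(x)` is the partial Gram matrix with the entries
`∫_{(-∞, x]} U_i U_j`. -/
noncomputable def gramVec {ι : Type} [Fintype ι] (U : ι → ℝ → ℝ) (i : ι) (x : ℝ) : ℝ :=
  ∑ j, (∫ y in Iic x, U i y * U j y) * U j x

/-- The sum of `(U_i (Γ U)_j - U_j (Γ U)_i)²` over all pairs: it measures how far `U(x)` is from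
an eigenvector of `Γ(x)`. -/
noncomputable def wedgeSq {ι : Type} [Fintype ι] (U : ι → ℝ → ℝ) (x : ℝ) : ℝ :=
  ∑ i, ∑ j, (U i x * gramVec U j x - U j x * gramVec U i x) ^ 2

/-- The family of the real and imaginary parts. -/
noncomputable def parts {N : ℕ} (u : Fin N → ℝ → ℂ) : Fin N ⊕ Fin N → ℝ → ℝ :=
  Sum.elim (fun n x => (u n x).re) (fun n x => (u n x).im)

/-- The constants `K` admissible in the kinetic inequality in dimension one for families of
exactly `N` orthonormal functions. -/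
def Admissible (N : ℕ) : Set ℝ :=
  {K | ∀ u g : Fin N → ℝ → ℂ, (∀ n, IsSobolev (u n) (g n)) → IsOrthonormal u →
    K * ∫ x, (∑ n, ‖u n x‖ ^ 2) ^ 3 ≤ ∑ n, ∫ x, ‖g n x‖ ^ 2}

/-- The sharp Lieb–Thirring kinetic inequality in dimension one with an explicit non-negative
remainder, for real and for complex families with density matrix at most one; and, for every
`N ≥ 1`, the constant `π² / 4` is optimal for families of exactly `N` functions. -/
theorem result :
    (∀ (ι : Type) [Fintype ι] (U G : ι → ℝ → ℝ), (∀ i, IsSobolevReal (U i) (G i)) →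
      (∀ c : ι → ℝ, ∫ x, (∑ i, c i * U i x) ^ 2 ≤ ∑ i, c i ^ 2) →
      Integrable (fun x => density U x ^ 3) ∧ Integrable (fun x => density U x * wedgeSq U x) ∧
      π ^ 2 / 4 * (∫ x, density U x ^ 3) + π ^ 4 / 96 * (∫ x, density U x * wedgeSq U x) ≤
        ∑ i, ∫ x, G i x ^ 2) ∧
    (∀ (N : ℕ) (u g : Fin N → ℝ → ℂ), (∀ n, IsSobolev (u n) (g n)) → IsSuborthonormal u →
      Integrable (fun x => (∑ n, ‖u n x‖ ^ 2) ^ 3) ∧
      Integrable (fun x => (∑ n, ‖u n x‖ ^ 2) * wedgeSq (parts u) x) ∧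
      π ^ 2 / 4 * (∫ x, (∑ n, ‖u n x‖ ^ 2) ^ 3) +
        π ^ 4 / 96 * (∫ x, (∑ n, ‖u n x‖ ^ 2) * wedgeSq (parts u) x) ≤
        ∑ n, ∫ x, ‖g n x‖ ^ 2) ∧
    (∀ N : ℕ, 1 ≤ N → IsGreatest (Admissible N) (π ^ 2 / 4)) := by
  refine ⟨fun ι _ U G hs hgram => ?_, fun N u g hs hsub => ?_, fun N hN => ⟨?_, ?_⟩⟩
  · exact Pool.Agent.H158.RG.real_remainder (fun i => (hs i).memLp)
      (fun i => (hs i).memLp_deriv) (fun i => (hs i).integral_deriv) hgram
  · exact Pool.Agent.H158.RG.complex_remainder u g (fun n => (hs n).memLp)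
      (fun n => (hs n).memLp_deriv) (fun n => (hs n).integral_deriv) hsub
  · intro u g hs ho
    exact (Pool.Helper490.Calib.sharp_H1_complex u g (fun n => (hs n).memLp)
      (fun n => (hs n).memLp_deriv) (fun n => (hs n).integral_deriv) ho).2
  · intro K hK
    by_contra hlt
    rw [not_le] at hlt
    obtain ⟨u, g, h1, h2, h3, h4, h5⟩ :=
      Pool.Agent.H158.RGN.near_opt N hN (sub_pos.2 hlt)
    have h6 := hK u g (fun n => ⟨h1 n, h2 n, h3 n⟩) h4
    have h7 : π ^ 2 / 4 + (K - π ^ 2 / 4) = K := by ring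
    rw [h7] at h5
    linarith

end Pool.Agent.Results.MP_cfe56d_mp.RemainderTerm
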